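import Pool.Agent.Helper20.KS.Stm

/-!
# Kakeya sets: assembly
-/

set_option autoImplicit false

open Finset Filter Topology
open scoped Classical

namespace Pool.Agent.Helper20.KS

open Pool.Agent.Helper81.PK

lemma exponents {n θ s σ : ℝ} (hn : 1 ≤ n) (hθ : 0 < θ) (hs : s = θ * n + 1) (hσ : σ < s) :
    ∃ ε η : ℝ, 0 < ε ∧ ε < θ ∧ 0 < η ∧ η < 1 ∧ σ ≤ (1 - η) * (1 + n * (θ - ε)) := by
  have hs1 : 1 ≤ s := by
    rw [hs]
    have : 0 < θ * n := by positivity
    linarith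
  have hg : 0 < s - σ := by linarith
  refine ⟨min (θ / 2) ((s - σ) / (4 * n)), min (1 / 2) ((s - σ) / (4 * s)), ?_, ?_, ?_, ?_, ?_⟩
  · exact lt_min (by positivity) (by positivity)
  · exact (min_le_left _ _).trans_lt (by linarith)
  · exact lt_min (by norm_num) (by positivity)
  · exact (min_le_left _ _).trans_lt (by norm_num)
  · set ε := min (θ / 2) ((s - σ) / (4 * n)) with hε
    set η := min (1 / 2) ((s - σ) / (4 * s)) with hη
    have e0 : 0 < ε := lt_min (by positivity) (by positivity)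
    have h0 : 0 < η := lt_min (by norm_num) (by positivity)
    have e1 : ε * (4 * n) ≤ s - σ := by
      have : ε ≤ (s - σ) / (4 * n) := min_le_right _ _
      rwa [le_div_iff₀ (by positivity)] at this
    have h1 : η * (4 * s) ≤ s - σ := by
      have : η ≤ (s - σ) / (4 * s) := min_le_right _ _
      rwa [le_div_iff₀ (by positivity)] at this
    have e2 : 1 + n * (θ - ε) = s - n * ε := by rw [hs]; ring
    rw [e2]
    have e3 : 0 ≤ η * (n * ε) := by positivity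
    nlinarith

theorem main (GEO : S_GEO) (COV : S_COV) (CNT : S_CNT) (LIM : S_LIM) {θ : ℝ} (hθ : 0 < θ)
    (hθ1 : θ ≤ 1) (hK : Kakeya θ) (n : ℕ) (hn : 1 ≤ n) (K : Set (EuclideanSpace ℝ (Fin (n + 1))))
    (hb : Bornology.IsBounded K) (hk : IsKakeya K) :
    ((θ * n + 1 : ℝ) : EReal) ≤ lowerMinkowski K := by
  obtain ⟨w, W, hw, hW, hgeo⟩ := GEO n K hb hk
  refine LIM (n + 1) K (θ * n + 1) hb fun σ hσ => ?_
  obtain ⟨ε, η, hε0, hεθ, hη0, hη1, hση⟩ :=
    exponents (n := (n : ℝ)) (by exact_mod_cast hn) hθ rfl hσ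
  obtain ⟨R₀, hR₀⟩ := CNT θ hθ hθ1 hK n hn w W hw hW ε hε0 hεθ η hη0 hη1
  refine ⟨2 ^ (n + 1) * W * 3 ^ (n + 1), by positivity, max R₀ 1, fun R hR => ?_⟩
  have hR1 : 1 ≤ R := (le_max_right _ _).trans hR
  have hRR : (1 : ℝ) ≤ R := by exact_mod_cast hR1
  have hM : 1 ≤ ⌊(R : ℝ) ^ (1 - η)⌋₊ :=
    Nat.le_floor (by
      rw [Nat.cast_one]
      exact Real.one_le_rpow hRR (by linarith))
  obtain ⟨τ, D, b, hD1, hD2, hD3⟩ := hgeo _ hM
  obtain ⟨S, hS1, hS2⟩ := hR₀ R ((le_max_left _ _).trans hR) D b hD1 hD2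
  have hinj : Function.Injective (fun z : (Fin n → ℤ) × ℤ => (Fin.snoc z.1 z.2 : Fin (n + 1) → ℤ)) := by
    rintro ⟨z1, z2⟩ ⟨z3, z4⟩ h
    simp only at h
    have h1 := congrFun h (Fin.last n)
    rw [Fin.snoc_last, Fin.snoc_last] at h1
    have h2 : z1 = z3 := by
      funext k
      have := congrFun h k.castSucc
      rwa [Fin.snoc_castSucc, Fin.snoc_castSucc] at this
    rw [h1, h2]
  have hcov := COV (n + 1) K hb R hR1 (fun k => if k = Fin.last n then (R : ℝ) * τ else 0)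
    (S.image fun z => (Fin.snoc z.1 z.2 : Fin (n + 1) → ℤ)) (by
      intro z hz
      obtain ⟨p, hp, rfl⟩ := Finset.mem_image.1 hz
      obtain ⟨v, hv, s, hs, h1, h2⟩ := hS2 p hp
      obtain ⟨y, hy, hy1, hy2⟩ := hD3 v hv s hs
      refine ⟨y, hy, fun k => ?_⟩
      refine Fin.lastCases ?_ (fun k => ?_) k
      · rw [Fin.snoc_last, if_pos rfl, hy2, h2]
        congr 1
        ring
      · rw [Fin.snoc_castSucc, if_neg (Fin.castSucc_lt_last k).ne, hy1, h1, sub_zero])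
  rw [Finset.card_image_of_injective _ hinj] at hcov
  have hcovR : (S.card : ℝ) ≤ 3 ^ (n + 1) * (coverNum K (1 / R) : ℝ) := by exact_mod_cast hcov
  calc (R : ℝ) ^ σ ≤ (R : ℝ) ^ ((1 - η) * (1 + n * (θ - ε))) :=
        Real.rpow_le_rpow_of_exponent_le hRR hση
    _ ≤ 2 ^ (n + 1) * W * S.card := hS1
    _ ≤ 2 ^ (n + 1) * W * (3 ^ (n + 1) * (coverNum K (1 / R) : ℝ)) :=
        mul_le_mul_of_nonneg_left hcovR (by positivity)
    _ = 2 ^ (n + 1) * W * 3 ^ (n + 1) * coverNum K (1 / R) := by ring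

end Pool.Agent.Helper20.KS
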