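import Pool.Agent.Helper81.PK.Down2
import Pool.Agent.Helper81.PK.Up
import Pool.Agent.Helper20.KS.Main

/-!
# From the primes to the Kakeya statement
-/

set_option autoImplicit false

open Finset Filter Topology
open scoped Classical

namespace Pool.Agent.Helper20.KS

open Pool.Agent.Helper81.PK

lemma lower_of_le {𝓜 : ℕ → Set ℕ} {c c' : ℝ} (h : c ≤ c') (h' : Lower 𝓜 c') : Lower 𝓜 c := by
  intro ε hε
  obtain ⟨N₀, hN₀⟩ := h' ε hε
  refine ⟨N₀ + 1, fun N hN a => le_trans ?_ (hN₀ N (by omega) a)⟩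
  exact Real.rpow_le_rpow_of_exponent_le (by exact_mod_cast (by omega : 1 ≤ N)) (by linarith)

lemma lower_near {α c : ℝ} (h : Lower (primesNear α) c) : Lower (near α) c := by
  intro ε hε
  obtain ⟨N₀, hN₀⟩ := h ε hε
  refine ⟨N₀, fun N hN a => (hN₀ N hN a).trans ?_⟩
  have h1 : primesNear α N ⊆ near α N := fun p hp => hp.2
  exact_mod_cast cov_mono h1 N a

theorem kakeya_of_primes {θ : ℝ} (hθ1 : θ ≤ 1)
    (h : ∀ c : ℝ, c < θ → ∀ α₀ : ℝ, α₀ < 1 → ∃ α : ℝ, α₀ < α ∧ α < 1 ∧ Lower (primesNear α) c) :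
    Kakeya θ :=
  kakeya_of_near θ hθ1 fun c hc α₀ hα₀ => by
    obtain ⟨α, h1, h2, h3⟩ := h c hc α₀ hα₀
    exact ⟨α, h1, h2, lower_near h3⟩

theorem near_of_Q1 (h : ∀ α : ℝ, 1 / 2 < α → α < 1 → Lower (primesNear α) 1) :
    ∀ c : ℝ, c < 1 → ∀ α₀ : ℝ, α₀ < 1 → ∃ α : ℝ, α₀ < α ∧ α < 1 ∧ Lower (primesNear α) c := by
  intro c hc α₀ hα₀
  have h1 : max (1 / 2) α₀ < 1 := max_lt (by norm_num) hα₀
  have h2 := le_max_left (1 / 2) α₀
  have h3 := le_max_right (1 / 2) α₀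
  exact ⟨(max (1 / 2) α₀ + 1) / 2, by linarith, by linarith,
    lower_of_le hc.le (h _ (by linarith) (by linarith))⟩

end Pool.Agent.Helper20.KS
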