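import Pool.Agent.Helper81.PK.Defs

/-!
# Primes near `N ^ α` and Kakeya sets (project KS, MP_bb5cc8_nt)
-/

set_option autoImplicit false

open Finset Filter Topology
open scoped Classical

namespace Pool.Agent.Helper20.KS

open Pool.Agent.Helper81.PK

/-- The least number of sets of diameter at most `δ` covering `B` (for bounded `B`). -/
noncomputable def coverNum {n : ℕ} (B : Set (EuclideanSpace ℝ (Fin n))) (δ : ℝ) : ℕ :=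
  sInf {N | ∃ U : Fin N → Set (EuclideanSpace ℝ (Fin n)),
    (∀ i, ∀ x ∈ U i, ∀ y ∈ U i, dist x y ≤ δ) ∧ B ⊆ ⋃ i, U i}

/-- Lower Minkowski dimension. -/
noncomputable def lowerMinkowski {n : ℕ} (B : Set (EuclideanSpace ℝ (Fin n))) : EReal :=
  liminf (fun δ : ℝ => ((Real.log (coverNum B δ) / Real.log (1 / δ) : ℝ) : EReal)) (𝓝[>] 0)

/-- `K` contains a unit segment in every direction. -/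
def IsKakeya {n : ℕ} (K : Set (EuclideanSpace ℝ (Fin n))) : Prop :=
  ∀ e : EuclideanSpace ℝ (Fin n), ‖e‖ = 1 → ∃ a, ∀ t ∈ Set.Icc (0 : ℝ) 1, a + t • e ∈ K

/-- GEO -/
def S_GEO : Prop := ∀ (n : ℕ) (K : Set (EuclideanSpace ℝ (Fin (n + 1)))), Bornology.IsBounded K →
  IsKakeya K → ∃ w W : ℝ, 0 < w ∧ 1 ≤ W ∧ ∀ M : ℕ, 1 ≤ M →
    ∃ (τ : ℝ) (D : Finset (Fin n → ℕ)) (b : (Fin n → ℕ) → Fin n → ℝ),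
      (∀ v ∈ D, ∀ k, v k < M) ∧ (M : ℝ) ^ n ≤ W * D.card ∧
      ∀ v ∈ D, ∀ s ∈ Set.Icc (0 : ℝ) w, ∃ y ∈ K,
        (∀ k : Fin n, y k.castSucc = b v k + s * (v k / M)) ∧ y (Fin.last n) = τ + s

/-- COV -/
def S_COV : Prop := ∀ (n : ℕ) (K : Set (EuclideanSpace ℝ (Fin n))), Bornology.IsBounded K →
  ∀ (R : ℕ), 1 ≤ R → ∀ (u : Fin n → ℝ) (S : Finset (Fin n → ℤ)),
    (∀ z ∈ S, ∃ y ∈ K, ∀ k, z k = ⌊(R : ℝ) * y k - u k⌋) → S.card ≤ 3 ^ n * coverNum K (1 / R)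

/-- CNT -/
def S_CNT : Prop := ∀ θ : ℝ, 0 < θ → θ ≤ 1 → Kakeya θ → ∀ n : ℕ, 1 ≤ n → ∀ w W : ℝ, 0 < w → 1 ≤ W →
  ∀ ε : ℝ, 0 < ε → ε < θ → ∀ η : ℝ, 0 < η → η < 1 → ∃ R₀ : ℕ, ∀ R : ℕ, R₀ ≤ R →
    ∀ (D : Finset (Fin n → ℕ)) (b : (Fin n → ℕ) → Fin n → ℝ),
      (∀ v ∈ D, ∀ k, v k < ⌊(R : ℝ) ^ (1 - η)⌋₊) →
      (⌊(R : ℝ) ^ (1 - η)⌋₊ : ℝ) ^ n ≤ W * D.card →
      ∃ S : Finset ((Fin n → ℤ) × ℤ),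
        (R : ℝ) ^ ((1 - η) * (1 + n * (θ - ε))) ≤ 2 ^ (n + 1) * W * S.card ∧
        ∀ z ∈ S, ∃ v ∈ D, ∃ s ∈ Set.Icc (0 : ℝ) w,
          (∀ k, z.1 k = ⌊(R : ℝ) * (b v k + s * (v k / ⌊(R : ℝ) ^ (1 - η)⌋₊))⌋) ∧ z.2 = ⌊(R : ℝ) * s⌋

/-- LIM -/
def S_LIM : Prop := ∀ (n : ℕ) (K : Set (EuclideanSpace ℝ (Fin n))) (s : ℝ), Bornology.IsBounded K →
  (∀ σ : ℝ, σ < s → ∃ C : ℝ, 0 < C ∧ ∃ R₀ : ℕ, ∀ R : ℕ, R₀ ≤ R → (R : ℝ) ^ σ ≤ C * coverNum K (1 / R)) →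
  (s : EReal) ≤ lowerMinkowski K

end Pool.Agent.Helper20.KS
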